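import Mathlib

namespace Pool.Agent.Results.MP_339db1_al.Proper

/-- a `d`-CP structure on a monoid -/
structure DCP (M : Type) [Monoid M] (d : ℕ) where
  Φ : (Fin d → M) → M
  τ : Fin d → M
  bij : Function.Bijective Φ
  proj : ∀ i m, τ i * Φ m = m i

/-- homomorphisms of CP monoids -/
def IsHom {M N : Type} [Monoid M] [Monoid N] (S : DCP M 2) (T : DCP N 2) (f : M →* N) : Prop :=
  (∀ i, f (S.τ i) = T.τ i) ∧ ∀ m, f (S.Φ m) = T.Φ (f ∘ m)

/-- the union of the images of the transformation monoids, over all `d`-CP structures, `d ≥ 2` -/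
def gens (M : Type) [Monoid M] : Set M :=
  {x | ∃ (d : ℕ) (S : DCP M d) (f : Fin d → Fin d), 2 ≤ d ∧ x = S.Φ fun i => S.τ (f i)}

variable {M : Type} [Monoid M] {d : ℕ}

lemma ext' (S : DCP M d) {x y : M} (h : ∀ i, S.τ i * x = S.τ i * y) : x = y := by
  obtain ⟨a, rfl⟩ := S.bij.2 x
  obtain ⟨b, rfl⟩ := S.bij.2 y
  simp only [S.proj] at h
  rw [funext h]

lemma main [Nontrivial M] (S : DCP M 2) : S.τ 0 ∉ Submonoid.closure (gens M) := by
  obtain ⟨a, b, hab⟩ := exists_pair_ne M
  have key : ∀ x ∈ Submonoid.closure (gens M), ∀ n, x * n = 1 → n * x = 1 := by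
    intro x hx
    induction hx using Submonoid.closure_induction with
    | mem x hx =>
      obtain ⟨d, T, f, -, rfl⟩ := hx
      intro n hn
      have h1 : ∀ i, T.τ (f i) * n = T.τ i := fun i => by
        rw [← T.proj i fun i => T.τ (f i), mul_assoc, hn, mul_one]
      have hf : Function.Injective f := fun i j e => by
        classical
        by_contra hij
        have h2 : T.τ i = T.τ j := by rw [← h1 i, e, h1 j]
        have h3 := T.proj i fun k => if k = i then a else b
        rw [h2, T.proj] at h3
        simp [Ne.symm hij] at h3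
        exact hab h3.symm
      refine ext' T fun j => ?_
      obtain ⟨i, rfl⟩ := (Finite.injective_iff_surjective.1 hf) j
      rw [← mul_assoc, h1, T.proj, mul_one]
    | one => simp
    | mul x y _ _ hx hy =>
      intro n hn
      have h1 := hx (y * n) (by rwa [← mul_assoc])
      have h2 := hy (n * x) (by rwa [← mul_assoc])
      rwa [← mul_assoc]
  intro h
  have h1 := key _ h (S.Φ 1) (S.proj 0 1)
  have h2 : ∀ c, S.Φ ![1, c] = S.Φ 1 := fun c => by
    have := congrArg (· * S.Φ ![1, c]) h1
    simp only [mul_assoc, S.proj] at this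
    simpa using this.symm
  have h3 := congrFun (S.bij.1 ((h2 a).trans (h2 b).symm)) 1
  exact hab h3

def ex : DCP (Function.End ℕ) 2 where
  Φ m := fun x => Nat.pair (m 0 x) (m 1 x)
  τ := ![fun x => x.unpair.1, fun x => x.unpair.2]
  bij := by
    constructor
    · intro m m' h
      funext i x
      have := Nat.pair_eq_pair.1 (congrFun h x)
      fin_cases i
      exacts [this.1, this.2]
    · exact fun g => ⟨![fun x => (g x).unpair.1, fun x => (g x).unpair.2],
        funext fun x => Nat.pair_unpair _⟩
  proj i m := by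
    funext x
    fin_cases i
    · exact congrArg Prod.fst (Nat.unpair_pair _ _)
    · exact congrArg Prod.snd (Nat.unpair_pair _ _)

theorem result (U : Type) [Monoid U] (S : DCP U 2)
    (h : Nontrivial U ∨ ∀ (N : Type) [Monoid N] (T : DCP N 2), ∃! f : U →* N, IsHom S T f) :
    S.τ 0 ∉ Submonoid.closure (gens U) := by
  have : Nontrivial U := by
    refine h.elim id fun h => ?_
    obtain ⟨f, hf, -⟩ := h _ ex
    refine ⟨S.τ 0, S.τ 1, fun e => ?_⟩
    have := congrFun ((hf.1 0).symm.trans (e ▸ hf.1 1)) (Nat.pair 0 1)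
    simp [ex] at this
  exact main S

end Pool.Agent.Results.MP_339db1_al.Proper
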